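import Pool.Agent.helper14.NS.Q150d.PN6

/-!
Generated: certificates.
-/

namespace Pool.Agent.helper14.NS.Q150d

open Pool.Agent.helper31.IA (Z)
open Pool.Agent.helper31.IX (Op XOps runX Cov CovD cov_split covD_split)
open Pool.Agent.helper31.IC (TD)
open Pool.Agent.helper63.RG (reloc)
open Pool.Agent.helper63.NF hiding TD
open Pool.Agent.helper4.NS
open Pool.Agent.helper14.CF (xE covD_E)
open Pool.Agent.helper14.NR (share)

mutual
theorem A6_c0_t5 : CovD 1 gA6 [(6414139392, 917504000), (1236950581248, 137438953472), (549755813888, 549755813888)] :=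
  covD_E kA6_eq (.n 2 (.n 2 (.n 2 (.l 0) (.l 0)) (.n 0 (.l 0) (.l 0))) (.n 0 (.n 2 (.l 0) (.l 0)) (.n 2 (.l 0) (.l 0))))
    [(6414139392, 917504000), (1236950581248, 137438953472), (549755813888, 549755813888)] rfl (by decide +kernel)
theorem A6_c0_t7 : CovD 1 gA6 [(6414139392, 917504000), (1168231104512, 68719476736), (1649267441664, 549755813888)] :=
  covD_E kA6_eq (.n 0 (.n 2 (.n 2 (.l 0) (.n 0 (.l 0) (.l 0))) (.n 0 (.n 2 (.l 0) (.l 0)) (.n 2 (.l 0) (.l 0)))) (.n 2 (.n 2 (.l 0) (.l 0)) (.n 2 (.l 0) (.l 0))))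
    [(6414139392, 917504000), (1168231104512, 68719476736), (1649267441664, 549755813888)] rfl (by decide +kernel)
end

mutual
theorem A6_c0_t8 : CovD 1 gA6 [(6414139392, 917504000), (1305670057984, 68719476736), (1649267441664, 549755813888)] :=
  covD_E kA6_eq (.n 2 (.n 2 (.l 0) (.n 0 (.l 0) (.l 0))) (.n 0 (.n 2 (.l 0) (.l 0)) (.n 2 (.l 0) (.l 0))))
    [(6414139392, 917504000), (1305670057984, 68719476736), (1649267441664, 549755813888)] rfl (by decide +kernel)
theorem A6_c0_t13 : CovD 1 gA6 [(5955387392, 458752000), (1168231104512, 68719476736), (2473901162496, 274877906944)] :=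
  covD_E kA6_eq (.n 2 (.n 0 (.l 0) (.l 0)) (.l 0))
    [(5955387392, 458752000), (1168231104512, 68719476736), (2473901162496, 274877906944)] rfl (by decide +kernel)
end

mutual
theorem A6_c0_t14 : CovD 1 gA6 [(5955387392, 458752000), (1168231104512, 68719476736), (3023656976384, 274877906944)] :=
  covD_E kA6_eq (.n 2 (.n 2 (.l 0) (.n 0 (.l 0) (.l 0))) (.n 2 (.n 2 (.l 0) (.n 0 (.l 0) (.l 0))) (.n 0 (.n 2 (.n 0 (.l 0) (.l 0)) (.n 2 (.l 0) (.n 0 (.l 0) (.l 0)))) (.n 2 (.l 0) (.n 1 (.l 0) (.l 0))))))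
    [(5955387392, 458752000), (1168231104512, 68719476736), (3023656976384, 274877906944)] rfl (by decide +kernel)
theorem A6_c0_t18 : CovD 1 gA6 [(5726011392, 229376000), (1168231104512, 68719476736), (3435973836800, 137438953472)] :=
  covD_E kA6_eq (.n 2 (.n 2 (.n 2 (.n 0 (.l 0) (.l 0)) (.n 2 (.l 0) (.l 0))) (.n 2 (.n 2 (.l 0) (.l 0)) (.n 2 (.l 0) (.l 0)))) (.n 2 (.n 2 (.n 2 (.l 0) (.l 0)) (.n 1 (.l 0) (.l 0))) (.n 1 (.n 2 (.l 0) (.l 0)) (.l 0))))
    [(5726011392, 229376000), (1168231104512, 68719476736), (3435973836800, 137438953472)] rfl (by decide +kernel)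
end

mutual
theorem A6_c0_t19 : CovD 1 gA6 [(6184763392, 229376000), (1168231104512, 68719476736), (3435973836800, 137438953472)] :=
  covD_E kA6_eq (.n 2 (.n 2 (.n 2 (.l 0) (.l 0)) (.n 2 (.l 0) (.l 0))) (.n 2 (.n 2 (.l 0) (.l 0)) (.l 0)))
    [(6184763392, 229376000), (1168231104512, 68719476736), (3435973836800, 137438953472)] rfl (by decide +kernel)
theorem A6_c0_t20 : CovD 1 gA6 [(5955387392, 458752000), (1168231104512, 68719476736), (3710851743744, 137438953472)] :=
  covD_E kA6_eq (.n 2 (.n 0 (.n 2 (.n 1 (.l 0) (.l 0)) (.l 0)) (.n 2 (.l 0) (.l 0))) (.n 2 (.l 0) (.l 0)))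
    [(5955387392, 458752000), (1168231104512, 68719476736), (3710851743744, 137438953472)] rfl (by decide +kernel)
end

mutual
theorem A6_c0_t21 : CovD 1 gA6 [(5955387392, 458752000), (1168231104512, 68719476736), (4123168604160, 274877906944)] :=
  covD_E kA6_eq (.n 2 (.n 2 (.l 0) (.l 0)) (.l 0))
    [(5955387392, 458752000), (1168231104512, 68719476736), (4123168604160, 274877906944)] rfl (by decide +kernel)
theorem A6_c0_t23 : CovD 1 gA6 [(5955387392, 458752000), (1305670057984, 68719476736), (2748779069440, 549755813888)] :=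
  covD_E kA6_eq (.n 2 (.n 2 (.l 0) (.l 0)) (.n 2 (.n 2 (.l 0) (.n 0 (.l 0) (.l 0))) (.n 2 (.n 2 (.l 0) (.l 0)) (.n 0 (.n 2 (.l 0) (.n 0 (.l 0) (.l 0))) (.n 2 (.l 0) (.l 0))))))
    [(5955387392, 458752000), (1305670057984, 68719476736), (2748779069440, 549755813888)] rfl (by decide +kernel)
end

mutual
theorem A6_c0_t25 : CovD 1 gA6 [(5955387392, 458752000), (1305670057984, 68719476736), (3573412790272, 274877906944)] :=
  covD_E kA6_eq (.n 2 (.n 0 (.n 2 (.n 2 (.n 2 (.l 0) (.l 0)) (.n 2 (.l 0) (.l 0))) (.n 2 (.n 1 (.l 0) (.l 0)) (.l 0))) (.n 2 (.n 2 (.l 0) (.l 0)) (.n 2 (.l 0) (.l 0)))) (.n 2 (.n 2 (.n 0 (.l 0) (.l 0)) (.l 0)) (.n 0 (.l 0) (.l 0))))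
    [(5955387392, 458752000), (1305670057984, 68719476736), (3573412790272, 274877906944)] rfl (by decide +kernel)
theorem A6_c0_t26 : CovD 1 gA6 [(5955387392, 458752000), (1305670057984, 68719476736), (4123168604160, 274877906944)] :=
  covD_E kA6_eq (.n 2 (.n 0 (.l 0) (.l 0)) (.l 0))
    [(5955387392, 458752000), (1305670057984, 68719476736), (4123168604160, 274877906944)] rfl (by decide +kernel)
end

mutual
theorem A6_c0_t29 : CovD 1 gA6 [(6872891392, 458752000), (1236950581248, 137438953472), (2473901162496, 274877906944)] :=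
  covD_E kA6_eq (.n 2 (.n 1 (.l 0) (.l 0)) (.n 2 (.l 0) (.n 0 (.l 0) (.l 0))))
    [(6872891392, 458752000), (1236950581248, 137438953472), (2473901162496, 274877906944)] rfl (by decide +kernel)
theorem A6_c0_t30 : CovD 1 gA6 [(6872891392, 458752000), (1236950581248, 137438953472), (3023656976384, 274877906944)] :=
  covD_E kA6_eq (.n 1 (.n 2 (.n 2 (.l 0) (.n 0 (.l 0) (.l 0))) (.n 2 (.n 2 (.l 0) (.l 0)) (.n 0 (.n 2 (.l 0) (.l 0)) (.n 2 (.l 0) (.l 0))))) (.n 2 (.n 2 (.l 0) (.l 0)) (.n 2 (.n 0 (.l 0) (.l 0)) (.n 2 (.l 0) (.l 0)))))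
    [(6872891392, 458752000), (1236950581248, 137438953472), (3023656976384, 274877906944)] rfl (by decide +kernel)
end

mutual
theorem A6_c0_t32 : CovD 1 gA6 [(6872891392, 458752000), (1168231104512, 68719476736), (3848290697216, 549755813888)] :=
  covD_E kA6_eq (.n 2 (.n 2 (.n 2 (.n 0 (.n 2 (.l 0) (.l 0)) (.n 2 (.l 0) (.l 0))) (.n 2 (.n 0 (.l 0) (.l 0)) (.l 0))) (.n 2 (.n 2 (.l 0) (.l 0)) (.l 0))) (.n 2 (.n 0 (.l 0) (.l 0)) (.l 0)))
    [(6872891392, 458752000), (1168231104512, 68719476736), (3848290697216, 549755813888)] rfl (by decide +kernel)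
theorem A6_c0_t33 : CovD 1 gA6 [(6872891392, 458752000), (1305670057984, 68719476736), (3848290697216, 549755813888)] :=
  covD_E kA6_eq (.n 2 (.n 2 (.n 2 (.n 2 (.l 0) (.l 0)) (.n 2 (.l 0) (.l 0))) (.n 2 (.n 0 (.l 0) (.l 0)) (.l 0))) (.n 2 (.l 0) (.l 0)))
    [(6872891392, 458752000), (1305670057984, 68719476736), (3848290697216, 549755813888)] rfl (by decide +kernel)
end

mutual
theorem A6_c0_t36 : CovD 1 gA6 [(6414139392, 917504000), (1511828488192, 137438953472), (549755813888, 549755813888)] :=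
  covD_E kA6_eq (.n 2 (.n 2 (.n 2 (.l 0) (.l 0)) (.n 0 (.l 0) (.l 0))) (.n 0 (.n 2 (.l 0) (.l 0)) (.n 2 (.l 0) (.l 0))))
    [(6414139392, 917504000), (1511828488192, 137438953472), (549755813888, 549755813888)] rfl (by decide +kernel)
theorem A6_c0_t37 : CovD 1 gA6 [(6414139392, 917504000), (1511828488192, 137438953472), (1649267441664, 549755813888)] :=
  covD_E kA6_eq (.n 0 (.n 2 (.n 2 (.l 0) (.l 0)) (.n 2 (.l 0) (.n 0 (.l 0) (.l 0)))) (.n 2 (.n 1 (.l 0) (.l 0)) (.n 2 (.l 0) (.l 0))))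
    [(6414139392, 917504000), (1511828488192, 137438953472), (1649267441664, 549755813888)] rfl (by decide +kernel)
end

mutual
theorem A6_c0_t41 : CovD 1 gA6 [(5955387392, 458752000), (1511828488192, 137438953472), (2473901162496, 274877906944)] :=
  covD_E kA6_eq (.n 2 (.n 0 (.l 0) (.l 0)) (.n 2 (.l 0) (.l 0)))
    [(5955387392, 458752000), (1511828488192, 137438953472), (2473901162496, 274877906944)] rfl (by decide +kernel)
theorem A6_c0_t42 : CovD 1 gA6 [(5955387392, 458752000), (1511828488192, 137438953472), (3023656976384, 274877906944)] :=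
  covD_E kA6_eq (.n 1 (.n 2 (.n 2 (.l 0) (.l 0)) (.n 2 (.n 2 (.l 0) (.l 0)) (.n 2 (.l 0) (.n 0 (.l 0) (.l 0))))) (.n 2 (.n 2 (.l 0) (.l 0)) (.n 2 (.n 0 (.l 0) (.l 0)) (.n 2 (.l 0) (.l 0)))))
    [(5955387392, 458752000), (1511828488192, 137438953472), (3023656976384, 274877906944)] rfl (by decide +kernel)
end

mutual
theorem A6_c0_t44 : CovD 1 gA6 [(5955387392, 458752000), (1443109011456, 68719476736), (3848290697216, 549755813888)] :=
  covD_E kA6_eq (.n 2 (.n 2 (.n 2 (.n 0 (.n 2 (.l 0) (.l 0)) (.n 2 (.l 0) (.l 0))) (.n 2 (.n 0 (.l 0) (.l 0)) (.l 0))) (.n 2 (.n 2 (.l 0) (.l 0)) (.l 0))) (.n 2 (.n 0 (.l 0) (.l 0)) (.l 0)))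
    [(5955387392, 458752000), (1443109011456, 68719476736), (3848290697216, 549755813888)] rfl (by decide +kernel)
theorem A6_c0_t45 : CovD 1 gA6 [(5955387392, 458752000), (1580547964928, 68719476736), (3848290697216, 549755813888)] :=
  covD_E kA6_eq (.n 2 (.n 2 (.n 2 (.n 2 (.l 0) (.l 0)) (.n 2 (.l 0) (.l 0))) (.n 2 (.n 0 (.l 0) (.l 0)) (.l 0))) (.n 2 (.n 0 (.l 0) (.l 0)) (.l 0)))
    [(5955387392, 458752000), (1580547964928, 68719476736), (3848290697216, 549755813888)] rfl (by decide +kernel)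
end

mutual
theorem A6_c0_t47 : CovD 1 gA6 [(6872891392, 458752000), (1511828488192, 137438953472), (2748779069440, 549755813888)] :=
  covD_E kA6_eq (.n 2 (.n 2 (.n 0 (.l 0) (.l 0)) (.n 2 (.l 0) (.l 0))) (.n 1 (.n 2 (.n 2 (.l 0) (.l 0)) (.n 0 (.n 2 (.l 0) (.l 0)) (.n 2 (.l 0) (.l 0)))) (.n 2 (.n 2 (.l 0) (.l 0)) (.n 2 (.l 0) (.l 0)))))
    [(6872891392, 458752000), (1511828488192, 137438953472), (2748779069440, 549755813888)] rfl (by decide +kernel)
theorem A6_c0_t48 : CovD 1 gA6 [(6872891392, 458752000), (1511828488192, 137438953472), (3848290697216, 549755813888)] :=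
  covD_E kA6_eq (.n 1 (.n 2 (.n 2 (.n 0 (.n 2 (.l 0) (.l 0)) (.n 2 (.l 0) (.l 0))) (.n 2 (.l 0) (.l 0))) (.n 2 (.l 0) (.l 0))) (.n 2 (.n 2 (.n 2 (.l 0) (.l 0)) (.n 2 (.l 0) (.l 0))) (.n 2 (.l 0) (.l 0))))
    [(6872891392, 458752000), (1511828488192, 137438953472), (3848290697216, 549755813888)] rfl (by decide +kernel)
end

mutual
theorem A6_c0_t52 : CovD 1 gA6 [(5955387392, 458752000), (1786706395136, 137438953472), (1099511627776, 1099511627776)] :=
  covD_E kA6_eq (.n 2 (.n 2 (.n 2 (.l 0) (.l 0)) (.n 2 (.l 0) (.l 0))) (.n 2 (.n 1 (.l 0) (.l 0)) (.n 2 (.l 0) (.l 0))))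
    [(5955387392, 458752000), (1786706395136, 137438953472), (1099511627776, 1099511627776)] rfl (by decide +kernel)
theorem A6_c0_t54 : CovD 1 gA6 [(5955387392, 458752000), (1786706395136, 137438953472), (2748779069440, 549755813888)] :=
  covD_E kA6_eq (.n 2 (.n 2 (.n 0 (.l 0) (.l 0)) (.n 2 (.l 0) (.n 0 (.l 0) (.l 0)))) (.n 1 (.n 2 (.n 2 (.l 0) (.l 0)) (.n 0 (.n 2 (.l 0) (.l 0)) (.n 2 (.l 0) (.l 0)))) (.n 2 (.n 2 (.l 0) (.l 0)) (.n 2 (.l 0) (.l 0)))))
    [(5955387392, 458752000), (1786706395136, 137438953472), (2748779069440, 549755813888)] rfl (by decide +kernel)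
end

mutual
theorem A6_c0_t55 : CovD 1 gA6 [(5955387392, 458752000), (1786706395136, 137438953472), (3848290697216, 549755813888)] :=
  covD_E kA6_eq (.n 2 (.n 1 (.n 2 (.n 0 (.n 2 (.l 0) (.l 0)) (.n 2 (.l 0) (.l 0))) (.n 2 (.l 0) (.l 0))) (.n 2 (.n 2 (.l 0) (.l 0)) (.n 2 (.l 0) (.l 0)))) (.n 2 (.n 2 (.n 0 (.l 0) (.l 0)) (.l 0)) (.n 1 (.l 0) (.l 0))))
    [(5955387392, 458752000), (1786706395136, 137438953472), (3848290697216, 549755813888)] rfl (by decide +kernel)
theorem A6_c0_t57 : CovD 1 gA6 [(5955387392, 458752000), (2061584302080, 137438953472), (1099511627776, 1099511627776)] :=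
  covD_E kA6_eq (.n 2 (.n 2 (.n 2 (.l 0) (.l 0)) (.n 2 (.l 0) (.l 0))) (.n 2 (.n 2 (.l 0) (.l 0)) (.n 2 (.l 0) (.n 0 (.l 0) (.l 0)))))
    [(5955387392, 458752000), (2061584302080, 137438953472), (1099511627776, 1099511627776)] rfl (by decide +kernel)
end

mutual
theorem A6_c0_t59 : CovD 1 gA6 [(5955387392, 458752000), (1992864825344, 68719476736), (3298534883328, 1099511627776)] :=
  covD_E kA6_eq (.n 2 (.n 2 (.n 2 (.l 0) (.l 0)) (.n 2 (.n 2 (.l 0) (.l 0)) (.n 2 (.l 0) (.l 0)))) (.n 2 (.n 2 (.n 2 (.l 0) (.l 0)) (.n 2 (.l 0) (.l 0))) (.n 2 (.n 0 (.l 0) (.l 0)) (.l 0))))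
    [(5955387392, 458752000), (1992864825344, 68719476736), (3298534883328, 1099511627776)] rfl (by decide +kernel)
theorem A6_c0_t60 : CovD 1 gA6 [(5955387392, 458752000), (2130303778816, 68719476736), (3298534883328, 1099511627776)] :=
  covD_E kA6_eq (.n 2 (.n 2 (.n 2 (.l 0) (.l 0)) (.n 2 (.n 0 (.l 0) (.l 0)) (.n 2 (.l 0) (.l 0)))) (.n 2 (.n 2 (.n 2 (.l 0) (.l 0)) (.n 0 (.l 0) (.l 0))) (.n 2 (.l 0) (.l 0))))
    [(5955387392, 458752000), (2130303778816, 68719476736), (3298534883328, 1099511627776)] rfl (by decide +kernel)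
end

mutual
theorem A6_c0_t63 : CovD 1 gA6 [(6872891392, 458752000), (1786706395136, 137438953472), (1099511627776, 1099511627776)] :=
  covD_E kA6_eq (.n 2 (.n 2 (.n 2 (.l 0) (.l 0)) (.n 2 (.l 0) (.l 0))) (.n 2 (.n 2 (.l 0) (.l 0)) (.n 2 (.l 0) (.n 0 (.l 0) (.l 0)))))
    [(6872891392, 458752000), (1786706395136, 137438953472), (1099511627776, 1099511627776)] rfl (by decide +kernel)
theorem A6_c0_t65 : CovD 1 gA6 [(6872891392, 458752000), (1786706395136, 137438953472), (2748779069440, 549755813888)] :=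
  covD_E kA6_eq (.n 1 (.n 2 (.n 2 (.l 0) (.l 0)) (.n 2 (.n 2 (.l 0) (.l 0)) (.n 2 (.l 0) (.l 0)))) (.n 2 (.n 2 (.l 0) (.l 0)) (.n 2 (.n 0 (.l 0) (.l 0)) (.n 2 (.l 0) (.l 0)))))
    [(6872891392, 458752000), (1786706395136, 137438953472), (2748779069440, 549755813888)] rfl (by decide +kernel)
end

mutual
theorem A6_c0_t66 : CovD 1 gA6 [(6872891392, 458752000), (1786706395136, 137438953472), (3848290697216, 549755813888)] :=
  covD_E kA6_eq (.n 2 (.n 2 (.n 1 (.n 2 (.l 0) (.l 0)) (.n 2 (.l 0) (.l 0))) (.n 2 (.n 0 (.l 0) (.l 0)) (.l 0))) (.n 1 (.n 2 (.l 0) (.l 0)) (.n 2 (.l 0) (.l 0))))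
    [(6872891392, 458752000), (1786706395136, 137438953472), (3848290697216, 549755813888)] rfl (by decide +kernel)
theorem A6_c0_t68 : CovD 1 gA6 [(6872891392, 458752000), (2061584302080, 137438953472), (1099511627776, 1099511627776)] :=
  covD_E kA6_eq (.n 2 (.n 2 (.n 2 (.l 0) (.l 0)) (.n 2 (.l 0) (.l 0))) (.n 2 (.n 2 (.l 0) (.l 0)) (.n 2 (.l 0) (.n 0 (.l 0) (.l 0)))))
    [(6872891392, 458752000), (2061584302080, 137438953472), (1099511627776, 1099511627776)] rfl (by decide +kernel)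
end

mutual
theorem A6_c0_t70 : CovD 1 gA6 [(6872891392, 458752000), (1992864825344, 68719476736), (3298534883328, 1099511627776)] :=
  covD_E kA6_eq (.n 2 (.n 2 (.n 2 (.l 0) (.l 0)) (.n 0 (.n 2 (.l 0) (.l 0)) (.n 2 (.l 0) (.l 0)))) (.n 2 (.n 2 (.n 0 (.l 0) (.l 0)) (.l 0)) (.n 2 (.l 0) (.l 0))))
    [(6872891392, 458752000), (1992864825344, 68719476736), (3298534883328, 1099511627776)] rfl (by decide +kernel)
theorem A6_c0_t71 : CovD 1 gA6 [(6872891392, 458752000), (2130303778816, 68719476736), (3298534883328, 1099511627776)] :=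
  covD_E kA6_eq (.n 2 (.n 2 (.n 2 (.l 0) (.l 0)) (.n 2 (.l 0) (.n 0 (.l 0) (.l 0)))) (.n 2 (.n 2 (.n 0 (.l 0) (.l 0)) (.l 0)) (.n 2 (.l 0) (.l 0))))
    [(6872891392, 458752000), (2130303778816, 68719476736), (3298534883328, 1099511627776)] rfl (by decide +kernel)
end

mutual
theorem A6_c0_t75 : CovD 1 gA6 [(6414139392, 917504000), (1374389534720, 274877906944), (4947802324992, 549755813888)] :=
  covD_E kA6_eq (.n 2 (.n 0 (.n 2 (.n 2 (.n 1 (.n 0 (.n 0 (.l 1) (.l 1)) (.n 0 (.l 1) (.l 1))) (.n 2 (.l 0) (.l 1))) (.l 1)) (.l 1)) (.n 2 (.n 1 (.n 2 (.n 2 (.l 0) (.l 1)) (.l 1)) (.n 2 (.n 2 (.l 0) (.l 1)) (.l 1))) (.l 1))) (.l 1))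
    [(6414139392, 917504000), (1374389534720, 274877906944), (4947802324992, 549755813888)] rfl (by decide +kernel)
theorem A6_c0_t76 : CovD 1 gA6 [(6414139392, 917504000), (1374389534720, 274877906944), (6047313952768, 549755813888)] :=
  covD_E kA6_eq (.l 1)
    [(6414139392, 917504000), (1374389534720, 274877906944), (6047313952768, 549755813888)] rfl (by decide +kernel)
end

mutual
theorem A6_c0_t79 : CovD 1 gA6 [(5955387392, 458752000), (1924145348608, 274877906944), (4947802324992, 549755813888)] :=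
  covD_E kA6_eq (.n 2 (.n 2 (.n 1 (.n 2 (.n 2 (.l 0) (.n 0 (.l 1) (.l 1))) (.l 1)) (.n 2 (.n 2 (.l 0) (.n 0 (.l 1) (.l 1))) (.l 1))) (.l 1)) (.l 1))
    [(5955387392, 458752000), (1924145348608, 274877906944), (4947802324992, 549755813888)] rfl (by decide +kernel)
theorem A6_c0_t80 : CovD 1 gA6 [(6872891392, 458752000), (1924145348608, 274877906944), (4947802324992, 549755813888)] :=
  covD_E kA6_eq (.n 2 (.n 2 (.n 1 (.n 2 (.n 2 (.l 0) (.n 0 (.l 1) (.l 1))) (.l 1)) (.n 2 (.l 0) (.l 1))) (.l 1)) (.l 1))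
    [(6872891392, 458752000), (1924145348608, 274877906944), (4947802324992, 549755813888)] rfl (by decide +kernel)
end

mutual
theorem A6_c0_t81 : CovD 1 gA6 [(6414139392, 917504000), (1924145348608, 274877906944), (6047313952768, 549755813888)] :=
  covD_E kA6_eq (.l 1)
    [(6414139392, 917504000), (1924145348608, 274877906944), (6047313952768, 549755813888)] rfl (by decide +kernel)
theorem A6_c0_t82 : CovD 1 gA6 [(6414139392, 917504000), (1649267441664, 549755813888), (7696581394432, 1099511627776)] :=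
  covD_E kA6_eq (.n 2 (.n 0 (.l 1) (.l 1)) (.l 1))
    [(6414139392, 917504000), (1649267441664, 549755813888), (7696581394432, 1099511627776)] rfl (by decide +kernel)
end

mutual
theorem B6_c0_t3 : CovD 1 gB6 [(5955387392, 458752000), (1649267441664, 549755813888), (17179869184, 17179869184)] :=
  covD_E kB6_eq (.n 2 (.n 2 (.n 2 (.n 2 (.l 1) (.l 1)) (.n 2 (.l 1) (.l 1))) (.n 0 (.n 2 (.l 1) (.l 1)) (.n 2 (.l 1) (.l 1)))) (.n 2 (.n 2 (.n 0 (.l 1) (.l 1)) (.l 1)) (.n 2 (.l 1) (.l 1))))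
    [(5955387392, 458752000), (1649267441664, 549755813888), (17179869184, 17179869184)] rfl (by decide +kernel)
theorem B6_c0_t4 : CovD 1 gB6 [(6872891392, 458752000), (1649267441664, 549755813888), (17179869184, 17179869184)] :=
  covD_E kB6_eq (.n 2 (.n 2 (.n 2 (.l 1) (.l 1)) (.n 2 (.l 1) (.l 1))) (.n 2 (.n 2 (.l 1) (.l 1)) (.n 0 (.l 1) (.l 1))))
    [(6872891392, 458752000), (1649267441664, 549755813888), (17179869184, 17179869184)] rfl (by decide +kernel)
end

mutual
theorem B6_c0_t5 : CovD 1 gB6 [(6414139392, 917504000), (1649267441664, 549755813888), (51539607552, 17179869184)] :=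
  covD_E kB6_eq (.n 2 (.n 0 (.n 2 (.n 0 (.l 1) (.l 1)) (.l 1)) (.n 2 (.l 1) (.l 1))) (.n 2 (.n 0 (.l 1) (.l 1)) (.l 1)))
    [(6414139392, 917504000), (1649267441664, 549755813888), (51539607552, 17179869184)] rfl (by decide +kernel)
theorem B6_c0_t6 : CovD 1 gB6 [(6414139392, 917504000), (1649267441664, 549755813888), (103079215104, 34359738368)] :=
  covD_E kB6_eq (.n 2 (.n 0 (.n 2 (.l 1) (.l 1)) (.n 2 (.l 1) (.l 1))) (.n 2 (.n 0 (.l 1) (.l 1)) (.l 1)))
    [(6414139392, 917504000), (1649267441664, 549755813888), (103079215104, 34359738368)] rfl (by decide +kernel)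
end

mutual
theorem D6_c0_t2 : CovD 1 gD6 [(6414139392, 917504000), (1236950581248, 137438953472), (863610339328, 863610339328)] :=
  covD_E kD6_eq (.n 2 (.n 2 (.n 2 (.l 0) (.n 2 (.l 0) (.l 0))) (.n 2 (.n 2 (.l 0) (.l 0)) (.n 2 (.l 0) (.l 0)))) (.n 2 (.n 2 (.n 2 (.l 0) (.l 0)) (.n 2 (.l 0) (.l 0))) (.n 2 (.n 2 (.l 0) (.l 0)) (.n 2 (.l 0) (.l 0)))))
    [(6414139392, 917504000), (1236950581248, 137438953472), (863610339328, 863610339328)] rfl (by decide +kernel)
theorem D6_c0_t3 : CovD 1 gD6 [(6414139392, 917504000), (1511828488192, 137438953472), (863610339328, 863610339328)] :=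
  covD_E kD6_eq (.n 2 (.n 2 (.n 2 (.l 0) (.n 2 (.l 0) (.l 0))) (.n 2 (.n 2 (.l 0) (.l 0)) (.n 2 (.l 0) (.l 0)))) (.n 2 (.n 2 (.n 2 (.l 0) (.l 0)) (.n 2 (.l 0) (.l 0))) (.n 2 (.n 2 (.l 0) (.l 0)) (.n 2 (.l 0) (.l 0)))))
    [(6414139392, 917504000), (1511828488192, 137438953472), (863610339328, 863610339328)] rfl (by decide +kernel)
end

mutual
theorem D6_c0_t5 : CovD 1 gD6 [(6414139392, 917504000), (1786706395136, 137438953472), (863610339328, 863610339328)] :=
  covD_E kD6_eq (.n 2 (.n 2 (.n 2 (.l 0) (.n 2 (.l 0) (.l 0))) (.n 2 (.n 2 (.l 0) (.l 0)) (.n 2 (.l 0) (.l 0)))) (.n 2 (.n 2 (.n 2 (.l 0) (.l 0)) (.n 2 (.l 0) (.l 0))) (.n 2 (.n 2 (.l 0) (.l 0)) (.n 2 (.l 0) (.l 0)))))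
    [(6414139392, 917504000), (1786706395136, 137438953472), (863610339328, 863610339328)] rfl (by decide +kernel)
theorem D6_c0_t6 : CovD 1 gD6 [(6414139392, 917504000), (2061584302080, 137438953472), (863610339328, 863610339328)] :=
  covD_E kD6_eq (.n 2 (.n 2 (.n 2 (.n 0 (.l 0) (.l 0)) (.n 2 (.l 0) (.l 0))) (.n 2 (.n 2 (.l 0) (.l 0)) (.n 2 (.l 0) (.l 0)))) (.n 2 (.n 2 (.n 2 (.l 0) (.l 0)) (.n 2 (.l 0) (.l 0))) (.n 2 (.n 2 (.l 0) (.l 0)) (.n 2 (.l 0) (.l 0)))))
    [(6414139392, 917504000), (2061584302080, 137438953472), (863610339328, 863610339328)] rfl (by decide +kernel)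
end

mutual
theorem E6_c0_t3 : CovD 1 gE6 [(6414139392, 917504000), (1649267441664, 549755813888), (107951292416, 107951292416)] :=
  covD_E kE6_eq (.n 2 (.l 1) (.n 2 (.l 1) (.n 0 (.n 1 (.n 1 (.n 0 (.l 0) (.l 0)) (.l 0)) (.n 2 (.l 1) (.n 1 (.l 0) (.l 0)))) (.n 1 (.l 1) (.l 1)))))
    [(6414139392, 917504000), (1649267441664, 549755813888), (107951292416, 107951292416)] rfl (by decide +kernel)
theorem E6_c0_t5 : CovD 1 gE6 [(6414139392, 917504000), (1649267441664, 549755813888), (269878231040, 53975646208)] :=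
  covD_E kE6_eq (.n 1 (.n 0 (.n 1 (.n 0 (.l 0) (.l 0)) (.l 0)) (.n 1 (.l 0) (.l 0))) (.n 1 (.n 2 (.n 0 (.l 0) (.l 0)) (.l 0)) (.n 0 (.n 2 (.l 0) (.l 0)) (.n 2 (.l 0) (.l 0)))))
    [(6414139392, 917504000), (1649267441664, 549755813888), (269878231040, 53975646208)] rfl (by decide +kernel)
end

mutual
theorem E6_c0_t6 : CovD 1 gE6 [(6414139392, 917504000), (1649267441664, 549755813888), (377829523456, 53975646208)] :=
  covD_E kE6_eq (.n 1 (.n 1 (.n 0 (.l 0) (.l 0)) (.l 0)) (.n 1 (.n 0 (.l 0) (.l 0)) (.n 2 (.l 0) (.l 0))))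
    [(6414139392, 917504000), (1649267441664, 549755813888), (377829523456, 53975646208)] rfl (by decide +kernel)
theorem E6_c0_t8 : CovD 1 gE6 [(6414139392, 917504000), (1649267441664, 549755813888), (539756462080, 107951292416)] :=
  covD_E kE6_eq (.n 2 (.n 1 (.n 1 (.n 0 (.l 0) (.l 0)) (.l 0)) (.n 1 (.l 0) (.n 0 (.l 0) (.l 0)))) (.n 1 (.n 1 (.l 0) (.l 0)) (.n 1 (.l 0) (.l 0))))
    [(6414139392, 917504000), (1649267441664, 549755813888), (539756462080, 107951292416)] rfl (by decide +kernel)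
end

mutual
theorem E6_c0_t9 : CovD 1 gE6 [(6414139392, 917504000), (1649267441664, 549755813888), (755659046912, 107951292416)] :=
  covD_E kE6_eq (.n 2 (.n 1 (.n 1 (.l 0) (.l 0)) (.n 1 (.l 0) (.l 0))) (.n 1 (.n 1 (.l 0) (.l 0)) (.n 1 (.l 0) (.l 0))))
    [(6414139392, 917504000), (1649267441664, 549755813888), (755659046912, 107951292416)] rfl (by decide +kernel)
theorem E6_c0_t11 : CovD 1 gE6 [(6414139392, 917504000), (1649267441664, 549755813888), (1079512924160, 215902584832)] :=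
  covD_E kE6_eq (.n 2 (.n 2 (.n 1 (.n 1 (.l 0) (.l 0)) (.n 1 (.l 0) (.l 0))) (.n 1 (.n 1 (.l 0) (.l 0)) (.n 1 (.l 0) (.l 0)))) (.n 2 (.n 1 (.n 1 (.l 0) (.l 0)) (.n 1 (.l 0) (.l 0))) (.n 1 (.n 1 (.l 0) (.l 0)) (.n 1 (.l 0) (.l 0)))))
    [(6414139392, 917504000), (1649267441664, 549755813888), (1079512924160, 215902584832)] rfl (by decide +kernel)
end

theorem E6_c0_t12 : CovD 1 gE6 [(6414139392, 917504000), (1649267441664, 549755813888), (1511318093824, 215902584832)] :=
  covD_E kE6_eq (.n 2 (.n 2 (.n 1 (.n 1 (.l 0) (.l 0)) (.n 1 (.l 0) (.l 0))) (.n 1 (.n 1 (.l 0) (.l 0)) (.n 1 (.l 0) (.l 0)))) (.n 2 (.n 1 (.n 1 (.l 0) (.l 0)) (.n 1 (.l 0) (.l 0))) (.n 1 (.n 1 (.l 0) (.l 0)) (.n 1 (.l 0) (.l 0)))))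
    [(6414139392, 917504000), (1649267441664, 549755813888), (1511318093824, 215902584832)] rfl (by decide +kernel)

theorem A6_c0_t6 : CovD 1 gA6 [(6414139392, 917504000), (1236950581248, 137438953472), (1649267441664, 549755813888)] :=
  covD_split 1 (by decide +kernel) A6_c0_t7 A6_c0_t8

theorem A6_c0_t4 : CovD 1 gA6 [(6414139392, 917504000), (1236950581248, 137438953472), (1099511627776, 1099511627776)] :=
  covD_split 2 (by decide +kernel) A6_c0_t5 A6_c0_t6

theorem A6_c0_t12 : CovD 1 gA6 [(5955387392, 458752000), (1168231104512, 68719476736), (2748779069440, 549755813888)] :=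
  covD_split 2 (by decide +kernel) A6_c0_t13 A6_c0_t14

theorem A6_c0_t17 : CovD 1 gA6 [(5955387392, 458752000), (1168231104512, 68719476736), (3435973836800, 137438953472)] :=
  covD_split 0 (by decide +kernel) A6_c0_t18 A6_c0_t19

theorem A6_c0_t16 : CovD 1 gA6 [(5955387392, 458752000), (1168231104512, 68719476736), (3573412790272, 274877906944)] :=
  covD_split 2 (by decide +kernel) A6_c0_t17 A6_c0_t20

theorem A6_c0_t15 : CovD 1 gA6 [(5955387392, 458752000), (1168231104512, 68719476736), (3848290697216, 549755813888)] :=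
  covD_split 2 (by decide +kernel) A6_c0_t16 A6_c0_t21

theorem A6_c0_t11 : CovD 1 gA6 [(5955387392, 458752000), (1168231104512, 68719476736), (3298534883328, 1099511627776)] :=
  covD_split 2 (by decide +kernel) A6_c0_t12 A6_c0_t15

theorem A6_c0_t24 : CovD 1 gA6 [(5955387392, 458752000), (1305670057984, 68719476736), (3848290697216, 549755813888)] :=
  covD_split 2 (by decide +kernel) A6_c0_t25 A6_c0_t26

theorem A6_c0_t22 : CovD 1 gA6 [(5955387392, 458752000), (1305670057984, 68719476736), (3298534883328, 1099511627776)] :=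
  covD_split 2 (by decide +kernel) A6_c0_t23 A6_c0_t24

theorem A6_c0_t10 : CovD 1 gA6 [(5955387392, 458752000), (1236950581248, 137438953472), (3298534883328, 1099511627776)] :=
  covD_split 1 (by decide +kernel) A6_c0_t11 A6_c0_t22

theorem A6_c0_t28 : CovD 1 gA6 [(6872891392, 458752000), (1236950581248, 137438953472), (2748779069440, 549755813888)] :=
  covD_split 2 (by decide +kernel) A6_c0_t29 A6_c0_t30

theorem A6_c0_t31 : CovD 1 gA6 [(6872891392, 458752000), (1236950581248, 137438953472), (3848290697216, 549755813888)] :=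
  covD_split 1 (by decide +kernel) A6_c0_t32 A6_c0_t33

theorem A6_c0_t27 : CovD 1 gA6 [(6872891392, 458752000), (1236950581248, 137438953472), (3298534883328, 1099511627776)] :=
  covD_split 2 (by decide +kernel) A6_c0_t28 A6_c0_t31

theorem A6_c0_t9 : CovD 1 gA6 [(6414139392, 917504000), (1236950581248, 137438953472), (3298534883328, 1099511627776)] :=
  covD_split 0 (by decide +kernel) A6_c0_t10 A6_c0_t27

theorem A6_c0_t3 : CovD 1 gA6 [(6414139392, 917504000), (1236950581248, 137438953472), (2199023255552, 2199023255552)] :=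
  covD_split 2 (by decide +kernel) A6_c0_t4 A6_c0_t9

theorem A6_c0_t35 : CovD 1 gA6 [(6414139392, 917504000), (1511828488192, 137438953472), (1099511627776, 1099511627776)] :=
  covD_split 2 (by decide +kernel) A6_c0_t36 A6_c0_t37

theorem A6_c0_t40 : CovD 1 gA6 [(5955387392, 458752000), (1511828488192, 137438953472), (2748779069440, 549755813888)] :=
  covD_split 2 (by decide +kernel) A6_c0_t41 A6_c0_t42

theorem A6_c0_t43 : CovD 1 gA6 [(5955387392, 458752000), (1511828488192, 137438953472), (3848290697216, 549755813888)] :=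
  covD_split 1 (by decide +kernel) A6_c0_t44 A6_c0_t45

theorem A6_c0_t39 : CovD 1 gA6 [(5955387392, 458752000), (1511828488192, 137438953472), (3298534883328, 1099511627776)] :=
  covD_split 2 (by decide +kernel) A6_c0_t40 A6_c0_t43

theorem A6_c0_t46 : CovD 1 gA6 [(6872891392, 458752000), (1511828488192, 137438953472), (3298534883328, 1099511627776)] :=
  covD_split 2 (by decide +kernel) A6_c0_t47 A6_c0_t48

theorem A6_c0_t38 : CovD 1 gA6 [(6414139392, 917504000), (1511828488192, 137438953472), (3298534883328, 1099511627776)] :=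
  covD_split 0 (by decide +kernel) A6_c0_t39 A6_c0_t46

theorem A6_c0_t34 : CovD 1 gA6 [(6414139392, 917504000), (1511828488192, 137438953472), (2199023255552, 2199023255552)] :=
  covD_split 2 (by decide +kernel) A6_c0_t35 A6_c0_t38

theorem A6_c0_t2 : CovD 1 gA6 [(6414139392, 917504000), (1374389534720, 274877906944), (2199023255552, 2199023255552)] :=
  covD_split 1 (by decide +kernel) A6_c0_t3 A6_c0_t34

theorem A6_c0_t53 : CovD 1 gA6 [(5955387392, 458752000), (1786706395136, 137438953472), (3298534883328, 1099511627776)] :=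
  covD_split 2 (by decide +kernel) A6_c0_t54 A6_c0_t55

theorem A6_c0_t51 : CovD 1 gA6 [(5955387392, 458752000), (1786706395136, 137438953472), (2199023255552, 2199023255552)] :=
  covD_split 2 (by decide +kernel) A6_c0_t52 A6_c0_t53

theorem A6_c0_t58 : CovD 1 gA6 [(5955387392, 458752000), (2061584302080, 137438953472), (3298534883328, 1099511627776)] :=
  covD_split 1 (by decide +kernel) A6_c0_t59 A6_c0_t60

theorem A6_c0_t56 : CovD 1 gA6 [(5955387392, 458752000), (2061584302080, 137438953472), (2199023255552, 2199023255552)] :=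
  covD_split 2 (by decide +kernel) A6_c0_t57 A6_c0_t58

theorem A6_c0_t50 : CovD 1 gA6 [(5955387392, 458752000), (1924145348608, 274877906944), (2199023255552, 2199023255552)] :=
  covD_split 1 (by decide +kernel) A6_c0_t51 A6_c0_t56

theorem A6_c0_t64 : CovD 1 gA6 [(6872891392, 458752000), (1786706395136, 137438953472), (3298534883328, 1099511627776)] :=
  covD_split 2 (by decide +kernel) A6_c0_t65 A6_c0_t66

theorem A6_c0_t62 : CovD 1 gA6 [(6872891392, 458752000), (1786706395136, 137438953472), (2199023255552, 2199023255552)] :=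
  covD_split 2 (by decide +kernel) A6_c0_t63 A6_c0_t64

theorem A6_c0_t69 : CovD 1 gA6 [(6872891392, 458752000), (2061584302080, 137438953472), (3298534883328, 1099511627776)] :=
  covD_split 1 (by decide +kernel) A6_c0_t70 A6_c0_t71

theorem A6_c0_t67 : CovD 1 gA6 [(6872891392, 458752000), (2061584302080, 137438953472), (2199023255552, 2199023255552)] :=
  covD_split 2 (by decide +kernel) A6_c0_t68 A6_c0_t69

theorem A6_c0_t61 : CovD 1 gA6 [(6872891392, 458752000), (1924145348608, 274877906944), (2199023255552, 2199023255552)] :=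
  covD_split 1 (by decide +kernel) A6_c0_t62 A6_c0_t67

theorem A6_c0_t49 : CovD 1 gA6 [(6414139392, 917504000), (1924145348608, 274877906944), (2199023255552, 2199023255552)] :=
  covD_split 0 (by decide +kernel) A6_c0_t50 A6_c0_t61

theorem A6_c0_t1 : CovD 1 gA6 [(6414139392, 917504000), (1649267441664, 549755813888), (2199023255552, 2199023255552)] :=
  covD_split 1 (by decide +kernel) A6_c0_t2 A6_c0_t49

theorem A6_c0_t74 : CovD 1 gA6 [(6414139392, 917504000), (1374389534720, 274877906944), (5497558138880, 1099511627776)] :=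
  covD_split 2 (by decide +kernel) A6_c0_t75 A6_c0_t76

theorem A6_c0_t78 : CovD 1 gA6 [(6414139392, 917504000), (1924145348608, 274877906944), (4947802324992, 549755813888)] :=
  covD_split 0 (by decide +kernel) A6_c0_t79 A6_c0_t80

theorem A6_c0_t77 : CovD 1 gA6 [(6414139392, 917504000), (1924145348608, 274877906944), (5497558138880, 1099511627776)] :=
  covD_split 2 (by decide +kernel) A6_c0_t78 A6_c0_t81

theorem A6_c0_t73 : CovD 1 gA6 [(6414139392, 917504000), (1649267441664, 549755813888), (5497558138880, 1099511627776)] :=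
  covD_split 1 (by decide +kernel) A6_c0_t74 A6_c0_t77

theorem A6_c0_t72 : CovD 1 gA6 [(6414139392, 917504000), (1649267441664, 549755813888), (6597069766656, 2199023255552)] :=
  covD_split 2 (by decide +kernel) A6_c0_t73 A6_c0_t82

theorem A6_c0 : CovD 1 gA6 [(6414139392, 917504000), (1649267441664, 549755813888), (4398046511104, 4398046511104)] :=
  covD_split 2 (by decide +kernel) A6_c0_t1 A6_c0_t72

theorem B6_c0_t2 : CovD 1 gB6 [(6414139392, 917504000), (1649267441664, 549755813888), (17179869184, 17179869184)] :=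
  covD_split 0 (by decide +kernel) B6_c0_t3 B6_c0_t4

theorem B6_c0_t1 : CovD 1 gB6 [(6414139392, 917504000), (1649267441664, 549755813888), (34359738368, 34359738368)] :=
  covD_split 2 (by decide +kernel) B6_c0_t2 B6_c0_t5

theorem B6_c0 : CovD 1 gB6 [(6414139392, 917504000), (1649267441664, 549755813888), (68719476736, 68719476736)] :=
  covD_split 2 (by decide +kernel) B6_c0_t1 B6_c0_t6

theorem D6_c0_t1 : CovD 1 gD6 [(6414139392, 917504000), (1374389534720, 274877906944), (863610339328, 863610339328)] :=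
  covD_split 1 (by decide +kernel) D6_c0_t2 D6_c0_t3

theorem D6_c0_t4 : CovD 1 gD6 [(6414139392, 917504000), (1924145348608, 274877906944), (863610339328, 863610339328)] :=
  covD_split 1 (by decide +kernel) D6_c0_t5 D6_c0_t6

theorem D6_c0 : CovD 1 gD6 [(6414139392, 917504000), (1649267441664, 549755813888), (863610339328, 863610339328)] :=
  covD_split 1 (by decide +kernel) D6_c0_t1 D6_c0_t4

theorem E6_c0_t4 : CovD 1 gE6 [(6414139392, 917504000), (1649267441664, 549755813888), (323853877248, 107951292416)] :=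
  covD_split 2 (by decide +kernel) E6_c0_t5 E6_c0_t6

theorem E6_c0_t2 : CovD 1 gE6 [(6414139392, 917504000), (1649267441664, 549755813888), (215902584832, 215902584832)] :=
  covD_split 2 (by decide +kernel) E6_c0_t3 E6_c0_t4

theorem E6_c0_t7 : CovD 1 gE6 [(6414139392, 917504000), (1649267441664, 549755813888), (647707754496, 215902584832)] :=
  covD_split 2 (by decide +kernel) E6_c0_t8 E6_c0_t9

theorem E6_c0_t1 : CovD 1 gE6 [(6414139392, 917504000), (1649267441664, 549755813888), (431805169664, 431805169664)] :=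
  covD_split 2 (by decide +kernel) E6_c0_t2 E6_c0_t7

theorem E6_c0_t10 : CovD 1 gE6 [(6414139392, 917504000), (1649267441664, 549755813888), (1295415508992, 431805169664)] :=
  covD_split 2 (by decide +kernel) E6_c0_t11 E6_c0_t12

theorem E6_c0 : CovD 1 gE6 [(6414139392, 917504000), (1649267441664, 549755813888), (863610339328, 863610339328)] :=
  covD_split 2 (by decide +kernel) E6_c0_t1 E6_c0_t10

end Pool.Agent.helper14.NS.Q150d
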